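import Pool.Agent.Run7.h902.CtEt

/-!
# MP_e93a6a_ag: finite generation in fixed weight, degree and dimension, and moduli spaces of
configurations of points

The hypothesis `E : EtaleMotivic` collects known properties of the groups `A n i X = H^i(X_et, ℤ^c(n))`,
`n ≤ 0`, of arithmetic schemes (Geisser): localization, the factor `A n i X` of `A n (i - 1) (X × 𝔾_m)` and
`A n i (X × 𝔸^1) ≅ A (n - 1) (i + 2) X`.

`FrameModuli ℤ A`: `Spec A` is a moduli space over `ℤ` of configurations of points in the projective plane:
the points `(1:0:0)`, `(0:1:0)`, `(0:0:1)`, `(1:1:1)` and finitely many points moving in given Schubert cells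
`(1:x:y)`, `(0:1:y)`, `(0:0:1)`, such that every triple of points is prescribed to be collinear
or not collinear: the realization space over `ℤ` of a matroid of rank `3` modulo `PGL_3`. `SmoothZ A`:
smooth over `ℤ` or over a prime field.

Theorem: (1) For each weight `n < 0`, each degree `i` and each `d`, `H^i(X_et, ℤ^c(n))` is finitely generated
for all arithmetic schemes `X` of dimension at most `d` if and only if it is for the integral realization
spaces of dimension at most `d` which are smooth over `ℤ` or a prime field. (2) For every set `D` of
degrees which is not bounded below, Q1 (all `n < 0`, all `i`, all `X`) is equivalent to finite generation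
for `n = -1`, `i ∈ D`, and these realization spaces.

Proof. Finite generation of a single group passes from a closed part and the open complement to the
scheme, by the exactness of `A n i Z → A n i X → A n i U`; and every integral scheme of finite type
over `ℤ` has a dense open subscheme which is ISOMORPHIC to such a realization space (an exact form of the
universality theorem of Mnev over `ℤ`, proved in `CuRing`, `CuGad`, `CuMain`).
-/

set_option autoImplicit false

open CategoryTheory AlgebraicGeometry Pool.Agent.Y116.UV Pool.Agent.Run7.h902

namespace Pool.Agent.Results.MP_e93a6a_ag.ConfigurationSpaces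

/-- **Theorem.** (1) In each weight `n < 0`, degree `i` and dimension at most `d`, finite generation of
`H^i(X_et, ℤ^c(n))` for all arithmetic schemes is equivalent to finite generation for the integral moduli
spaces of configurations of dimension at most `d`, smooth over `ℤ` or over a prime field. (2) For every
set `D` of integers which is not bounded below, finite generation in all weights `n < 0`, all degrees and
for all arithmetic schemes is equivalent to finite generation in weight `-1`, in the degrees `i ∈ D`, for
these moduli spaces. -/
theorem result (E : Ct.EtaleMotivic) :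
    (∀ (n i : ℤ) (d : ℕ), n < 0 →
      ((∀ X : Sch ℤ, FT True X → topologicalKrullDim X.left ≤ d → E.FG n i X) ↔
      ∀ (A : Type) [CommRing A] [Algebra ℤ A] [Algebra.FiniteType ℤ A], IsDomain A →
        Cu.SmoothZ A → Cx.FrameModuli ℤ A → ringKrullDim A ≤ d → E.FG n i (aff ℤ A))) ∧
    ∀ D : Set ℤ, (∀ N : ℤ, ∃ i ∈ D, i ≤ N) →
      ((∀ n : ℤ, n < 0 → ∀ (i : ℤ) (X : Sch ℤ), FT True X → E.FG n i X) ↔
      ∀ i ∈ D, ∀ (A : Type) [CommRing A] [Algebra ℤ A] [Algebra.FiniteType ℤ A], IsDomain A →
        Cu.SmoothZ A → Cx.FrameModuli ℤ A → E.FG (-1) i (aff ℤ A)) :=
  ⟨fun _ i d hn => Ct.fg_dim E hn.le i d, Ct.fg_all E⟩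

end Pool.Agent.Results.MP_e93a6a_ag.ConfigurationSpaces
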