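import Pool.Agent.Run7.h798.UV.Zc

/-!
# MP_e93a6a_ag, Q1: weight `-1`, low degrees and systems of bilinear equations

`A n i X` stands for the group `H^i(X_et, ℤ^c(n))` of an arithmetic scheme `X`. The hypothesis `IsZc A`
collects known properties for `n < 0` (Geisser): localization sequences, `A n i (X × 𝔸¹) = A (n-1) (i+2) X`,
and `A n i X` is a direct factor of `A n (i-1) (X × 𝔾_m)` (boundary map and product with the coordinate).
-/

set_option autoImplicit false

open CategoryTheory AlgebraicGeometry MvPolynomial Pool.Agent.Y116.UV Pool.Agent.Q282.UZ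
  Run7.h798.UV

universe w

namespace Pool.Agent.Results.MP_e93a6a_ag.ThreeTermSystems

/-- **Theorem.** Let `N` be any integer. The groups `H^i(X_et, ℤ^c(n))` are finitely generated for all
arithmetic schemes `X`, all `n < 0` and all `i ∈ ℤ` (Q1) if and only if the groups `H^i(X_et, ℤ^c(-1))`
are finitely generated for the single weight `-1`, in the degrees `i ≤ N`, and for the affine schemes `X`
over `ℤ` given by a system of bilinear equations `∑_{(i, j) ∈ E_l} x_i y_j = 0` with at most three terms
in every equation. -/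
theorem result {A : ℤ → ℤ → Sch ℤ → ModuleCat.{w} ℤ} (hA : IsZc A) (N : ℤ) :
    (∀ n < 0, ∀ X : Sch ℤ, FT True X → ∀ i, Module.Finite ℤ (A n i X)) ↔
      ∀ (a b c : ℕ) (E : Fin c → Finset (Fin a × Fin b)), (∀ l, (E l).card ≤ 3) →
        ∀ i ≤ N, Module.Finite ℤ (A (-1) i (sysS ℤ E)) :=
  zc_iff hA N

end Pool.Agent.Results.MP_e93a6a_ag.ThreeTermSystems
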