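import Pool.Agent.Run7.h30.EM.Res

/-!
# Étale cycle-complex cohomology in negative weights and trilinear hypersurfaces

`EtMot` (in `Pool.Agent.Run7.h30.EM.Thy`) collects the groups `H^i(X_et, ℤ^c(n))` of arithmetic schemes
with the known properties which are used: the localization sequence for `n ≤ 0`, homotopy invariance for
affine bundles of dimension `m`, `H^q(Y, ℤ^c(n)) = H^(q + 2 m)(U, ℤ^c(n - m))`, the direct factor
`H^(q + 1)(X, ℤ^c(n))` of `H^q(X × 𝔾_m, ℤ^c(n))`, and finite generation for dimension at most one and
`n < 0` (Morin).

* Q1 is true for the hypersurfaces `F(x, y, z) = 1`, all weights `n < 0` and all degrees, where `F` is a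
  trilinear form over a finite field such that one of the three blocks of variables has at most three
  variables (the other two are arbitrary), and where `F` is a trilinear form over an integral domain of
  finite type over `ℤ` and of dimension at most one (such as `ℤ`, a ring of integers, or the ring of an
  affine curve over a finite field) such that one of the three blocks has at most two variables.
* If Q1 is true for the schemes of dimension at most `d` over a finite field, then it is true for the
  `F(x, y, z) = 1` over this field with one block of at most `d + 2` variables; the dimension of these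
  hypersurfaces is unbounded.
* A three-term system is the closed subscheme of an affine space given by bilinear equations
  `∑_{(i, j) ∈ E} x_i y_j = 0` in two blocks of variables, where every equation has at most three terms,
  with coefficients `1`. Let `R` be a quotient ring of `ℤ`, `n ≤ 0`, and `S` a Serre class of abelian
  groups (such as the torsion groups). All groups `H^i(X_et, ℤ^c(n))` of all separated schemes of finite
  type over `R` are in `S` if and only if this is true for the three-term systems over `R`. Likewise for
  the property that `H^i(X_et, ℤ^c(n)) = 0` for `i ≪ 0`.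
* Q1 is equivalent to finite generation of `H^i(X_et, ℤ^c(-1))` for all affine arithmetic schemes and
  all `i` in some set of degrees which is unbounded below, however sparse.
-/

set_option autoImplicit false

open CategoryTheory CategoryTheory.Limits AlgebraicGeometry
open Pool.Agent.Y116.UV Pool.Agent.R904.TR Pool.Agent.Q282.UZ Pool.Agent.Run7.h30.EM

namespace Pool.Agent.Results.MP_e93a6a_ag.TrilinearHypersurfaces

/-- Q1: for every arithmetic scheme `X`, every `n < 0` and every `i` the group `H^i(X_et, ℤ^c(n))` is
finitely generated. -/
def Conjecture (T : EtMot) : Prop :=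
  ∀ X : Scheme.{0}, IsArithmetic X → ∀ i n : ℤ, n < 0 → AddGroup.FG (T.H i n X)

/-- Serre classes and boundedness: the three-term systems over `R` decide. -/
def Universal (T : EtMot) (R : Type) [CommRing R] (n : ℤ) : Prop :=
  (∀ S : ∀ (G : Type) [AddCommGroup G], Prop, IsSerre S →
    ((∀ X : Sch R, FT True X → ∀ i : ℤ, S (T.H i n X.left)) ↔
      ForThreeTerms fun X : Sch R => ∀ i : ℤ, S (T.H i n X.left))) ∧
  ((∀ X : Sch R, FT True X → ∃ i₀ : ℤ, ∀ i ≤ i₀, Subsingleton (T.H i n X.left)) ↔
    ForThreeTerms fun X : Sch R => ∃ i₀ : ℤ, ∀ i ≤ i₀, Subsingleton (T.H i n X.left))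

/-- the `H^i(X_et, ℤ^c(-1))` with `i ∈ D` are finitely generated, for all affine arithmetic schemes -/
def Degrees (T : EtMot) (D : Set ℤ) : Prop :=
  ∀ (A : Type) [CommRing A] [Algebra.FiniteType ℤ A], ∀ i ∈ D, AddGroup.FG (T.H i (-1) (Spec (.of A)))

/-- all groups of negative weight of the hypersurfaces `F(x, y, z) = 1` are finitely generated, for the
trilinear forms `F` over `R` such that one of the three blocks has at most `m` variables -/
def Blocks (T : EtMot) (R : Type) [CommRing R] (m : ℕ) : Prop :=
  ∀ (a b c : ℕ) (F : Fin a → Fin b → Fin c → R), (a ≤ m ∨ b ≤ m ∨ c ≤ m) →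
    ∀ i n : ℤ, n < 0 → AddGroup.FG (T.H i n (hypS F).left)

/-- Q1 for the separated schemes of finite type and of dimension at most `d` over `k` -/
def DimAtMost (T : EtMot) (k : Type) [Field k] (d : ℕ) : Prop :=
  ∀ X : Sch k, FT True X → topologicalKrullDim X.left ≤ d →
    ∀ i n : ℤ, n < 0 → AddGroup.FG (T.H i n X.left)

theorem result (T : EtMot) :
    (∀ (k : Type) [Field k] [Finite k], Blocks T k 3) ∧
    (∀ (R : Type) [CommRing R] [IsDomain R] [Algebra.FiniteType ℤ R], ringKrullDim R ≤ 1 →
      Blocks T R 2) ∧
    (∀ (k : Type) [Field k] [Finite k] (d : ℕ), DimAtMost T k d → Blocks T k (d + 2)) ∧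
    (∀ (R : Type) [CommRing R], Function.Surjective (Int.cast : ℤ → R) → ∀ n : ℤ, n ≤ 0 →
      Universal T R n) ∧
    ∀ D : Set ℤ, (∀ m : ℤ, ∃ i ∈ D, i ≤ m) → (Conjecture T ↔ Degrees T D) := by
  refine ⟨?_, ?_, ?_, ?_, ?_⟩
  · intro k _ _ a b c F hm i n hn
    exact three_block T k F hm i n hn
  · intro R _ _ _ h a b c F hm i n hn
    exact two_block T R h F hm i n hn
  · intro k _ _ d h a b c F hm i n hn
    exact dim_block T k d h F hm i n hn
  · intro R _ hR n hn
    exact ⟨fun S hS => iff_in hR T S hS n hn, iff_bdd hR T n hn⟩
  · intro D hD
    constructor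
    · intro h A _ _ i _
      exact h _ (arith_of_ft (R := ℤ) (X := aff ℤ A) aff_ft) i (-1) (by omega)
    · intro h
      refine (weight_iff T).mpr fun a b c E _ i => ?_
      have := ft_trans (R := ℤ) (MvPolynomial (Fin a ⊕ Fin b) ℤ ⧸
        Ideal.span (Set.range fun l => few ℤ (E l)))
      exact degrees T D hD (fun A _ _ i hi => h A i hi) _ i

end Pool.Agent.Results.MP_e93a6a_ag.TrilinearHypersurfaces
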