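import Pool.Agent.Run7.h570.GH.Zn

/-!
# MP_e93a6a_ag: very negative weights and graph hypersurfaces

`A n i X` stands for the group `H^i(X_et, ℤ^c(n))` of an arithmetic scheme `X`. The hypothesis `IsZc A`
collects known properties for `n < 0` (Geisser): localization sequences, `A n i (X × 𝔸¹) = A (n-1) (i+2) X`,
and `A n i X` is a direct factor of `A n (i-1) (X × 𝔾_m)`.

`Eventually A X`: there is an integer `N` (depending on `X`) such that the groups `H^i(X_et, ℤ^c(n))` are
finitely generated for all `n ≤ N` and all `i`.

For a finite graph `Γ` the Kirchhoff polynomial `kirchhoff ℤ Γ` is the sum over the spanning trees `T` of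
the products of the variables `x_e`, `e ∈ T`; `complement ℤ Γ` is the complement of the hypersurface where
it vanishes, in the affine space over `ℤ` with one coordinate for each edge. It is smooth over `ℤ`.

Theorem: finite generation in very negative weights is true for all arithmetic schemes if and only if it
is true for the complements of graph hypersurfaces.
-/

set_option autoImplicit false

open CategoryTheory AlgebraicGeometry Pool.Agent.Y116.UV Run7.h798.UV Run7.h570.GH

universe w

namespace Pool.Agent.Results.MP_e93a6a_ag.VeryNegativeWeights

/-- **Theorem.** The groups `H^i(X_et, ℤ^c(n))`, `i ∈ ℤ`, are finitely generated for all sufficiently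
negative `n` and all arithmetic schemes `X` if and only if this is true for the complements `X` of graph
hypersurfaces over `ℤ`. -/
theorem result {A : ℤ → ℤ → Sch ℤ → ModuleCat.{w} ℤ} (hA : IsZc A) :
    (∀ X : Sch ℤ, FT True X → ∃ N : ℤ, ∀ n ≤ N, ∀ i, Module.Finite ℤ (A n i X)) ↔
      ∀ (m : ℕ) (Γ : SimpleGraph (Fin m)), ∃ N : ℤ, ∀ n ≤ N, ∀ i,
        Module.Finite ℤ (A n i (complement ℤ Γ)) :=
  eventually_graphs hA

end Pool.Agent.Results.MP_e93a6a_ag.VeryNegativeWeights
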